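import Pool.Agent.H614.BF.Jet3

/-!
# Very ampleness of adjoint line bundles on images of small degree

Let `V` be a projective variety of dimension `n` in projective space, possibly singular, and `f : V ⇢ W`
a dominant rational map of degree `r` onto a projective variety `W`. Let `𝓛` be a line bundle on `W` such
that `f^* 𝓛 = 𝒪_V(ℓ) + E`, where `E` is effective. Let `U ⊂ W` be the open set of the smooth points over
a neighbourhood of which `f` is a finite flat morphism and `E` is trivial.

The theorem: if `ℓ ≥ n + s r`, then the sections of `K_W + 𝓛` separate the jets given by the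
zero-dimensional subschemes `ζ` of `U` of length at most `s`, that is, the restriction map from
`H^0(W, K_W + 𝓛)` to `H^0(ζ, K_W + 𝓛)` is surjective: `K_W + 𝓛` is `(s - 1)`-very ample on `U`. For
`s = 2` these are the pairs of points and the tangent vectors: `K_W + 𝓛` is very ample on `U`.

For Fujita's conjecture let `A` be an ample line bundle on the smooth projective variety `W` of dimension
`n`, and suppose that `W` has a finite covering `f : V → W` of degree `r`, where `V ⊂ ℙ^N` is
Cohen-Macaulay (so that `f` is flat), for instance smooth, such that `f^* A = 𝒪_V(k)`. Then `K_W + j A`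
is very ample if `j k ≥ n + 2 r`. In particular `K_W + (n + 2) A` is very ample if
`2 r ≤ (n + 2) k - n`; for `k = 2` these are the coverings with `2 r ≤ n + 4`, for `k = 3` those with
`r ≤ n + 3`. More generally `K_W + j A` is `(s - 1)`-very ample if `j k ≥ n + s r`.

The proof. The canonical forms `∑ ± x_(i_0) dx_(i_1) ∧ ... ∧ dx_(i_n)` are sections of
`K_V + (n + 1) H`, regular on every resolution of `V`, and generate the pull-backs of the generators of
`K_W + 𝓛`. The traces to `W` of their products with the forms of degree `m = ℓ - n - 1` on `V` are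
sections of `K_W + 𝓛`. Let `O` be the semi-local ring of `W` at the points of `ζ`, `b ⊂ O` the ideal of
`ζ` and `C` the ring of `V` over `O`. Then `C / b C` has dimension at most `s r ≤ m + 1` over `ℂ`, so
that it is spanned by the forms of degree `m`: the dimensions of the spaces spanned by the forms of
degree `j` increase strictly until they are stationary. So the sections above span the trace modulo `b`
of everything, and the traces of elements of `O` are their `r`-th multiples.

The function-field language of the starting repository is used: `K` and `L` are the function fields of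
`V` and `W`. A canonical form (`IsPluri 1`) on a variety of dimension `n` is a function of `n` rational
vector fields. Prime divisors over a variety are given by the places `P` (`Place`, `Divisorial`) of its
function field, `P.ord` is the order along `P`, and `DerReg P` says that a vector field is regular at
`P`. `Over Q P e` says that `Q` lies over `P` with ramification index `e`. A line bundle `𝓛` on `W`,
realised as a subsheaf of the constant sheaf `L`, is given by the numbers `a P`, where `- a P` is the
order at `P` of a generator of `𝓛` at the centre of `P`; that is, by the Cartier divisor `D` with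
`𝓛 = 𝒪_W(D)` and its pull-backs to the other models.
-/

set_option autoImplicit false
set_option linter.overlappingInstances false

open FF Pool.Agent.W602.GT

namespace Pool.Agent.Results.MP_e09b14_ag.VeryAmplenessOnImages

/-- The point `p` lies on the projective variety with generic point `y`: all homogeneous equations of
`y` hold for `p`. -/
def IsPoint {L : Type} [Field L] [Algebra ℂ L] {M : ℕ} (y : Fin M → L) (p : Fin M → ℂ) : Prop :=
  p ≠ 0 ∧ ∀ (e : ℕ) (F : MvPolynomial (Fin M) ℂ), F.IsHomogeneous e →
    MvPolynomial.aeval y F = 0 → MvPolynomial.aeval p F = 0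

/-- The point `p` lies on the closure of the centre of `P` on the projective variety with generic point
`y`: a form `B` which does not vanish at `p` does not vanish at this centre, that is, its order at `P`
is `deg B` times the minimum of the orders of the coordinates. -/
def Through {L : Type} [Field L] [Algebra ℂ L] {M : ℕ} (P : Place ℂ L) (y : Fin M → L)
    (p : Fin M → ℂ) : Prop :=
  ∀ (e : ℕ) (B : MvPolynomial (Fin M) ℂ), B.IsHomogeneous e → MvPolynomial.aeval p B ≠ 0 →
    ∀ i, y i ≠ 0 → P.ord (MvPolynomial.aeval y B) ≤ e * P.ord (y i)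

/-- The local ring `𝒪_(W, Z)` at the finite set of the points `p i`, `i ∈ Z`, of the projective variety
`W` with generic point `y`: the functions `A(y) / B(y)`, where `A` and `B` are forms of the same degree
and `B` does not vanish at the points `p i`. -/
def localRing {L : Type} [Field L] [Algebra ℂ L] {M : ℕ} {Z : Type} (y : Fin M → L)
    (p : Z → Fin M → ℂ) : Subalgebra ℂ L where
  carrier := {u | ∃ (e : ℕ) (A B : MvPolynomial (Fin M) ℂ), A.IsHomogeneous e ∧
    B.IsHomogeneous e ∧ (∀ i, MvPolynomial.aeval (p i) B ≠ 0) ∧ MvPolynomial.aeval y B ≠ 0 ∧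
    MvPolynomial.aeval y B * u = MvPolynomial.aeval y A}
  mul_mem' := (Pool.Agent.H614.BF.localRing y p).mul_mem'
  add_mem' := (Pool.Agent.H614.BF.localRing y p).add_mem'
  algebraMap_mem' := (Pool.Agent.H614.BF.localRing y p).algebraMap_mem'

section

variable {L : Type} [Field L] [Algebra ℂ L] {n M : ℕ} {Z : Type}

/-- The canonical form `θ` is at the prime divisor `P` a section of `K_W + 𝓛`: its values on vector
fields which are regular at `P` are sections of `𝓛` at `P`. -/
def SectionAt (a : Place ℂ L → ℤ) (P : Place ℂ L) (θ : (Fin n → Derivation ℂ L L) → L) : Prop :=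
  ∀ D : Fin n → Derivation ℂ L L, (∀ i, DerReg P (D i)) → θ D = 0 ∨ - a P ≤ P.ord (θ D)

/-- At the points `p i` of `W`, which are for instance smooth, `K_W + 𝓛` is generated by the nonzero form
`g dt_1 ∧ ... ∧ dt_n`, where the functions `t j` are in the local ring `𝒪_(W, Z)`: the canonical forms
`θ` which are sections of `K_W + 𝓛` at all prime divisors over `W` through one of the points `p i` are
equal to `h g dt_1 ∧ ... ∧ dt_n` with `h ∈ 𝒪_(W, Z)`. -/
def AdjointGenerator (a : Place ℂ L → ℤ) (y : Fin M → L) (p : Z → Fin M → ℂ) (g : L)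
    (t : Fin n → L) : Prop :=
  (∀ j, t j ∈ localRing y p) ∧
  (∃ D : Fin n → Derivation ℂ L L, g * (Matrix.of fun i j => D i (t j)).det ≠ 0) ∧
  ∀ θ : (Fin n → Derivation ℂ L L) → L, IsPluri 1 θ →
    (∀ P : Place ℂ L, Divisorial n P → (∃ i, Through P y (p i)) → SectionAt a P θ) →
    ∃ h ∈ localRing y p, ∀ D, θ D = h * (g * (Matrix.of fun i j => D i (t j)).det)

end

section

variable {K L : Type} [Field K] [Algebra ℂ K] [Field L] [Algebra ℂ L] [Algebra L K]
  [IsScalarTower ℂ L K] {N M : ℕ} {Z : Type}

/-- The coordinate ring `C` over `𝒪_(W, Z)` of the chart `lam ≠ 0` of `V`, generated by the functions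
`x_j / lam`. -/
def coordRing (x : Fin N → K) (y : Fin M → L) (p : Z → Fin M → ℂ) (lam : K) :
    Subalgebra (localRing y p) K :=
  Algebra.adjoin (localRing y p) (Set.range fun j => x j / lam)

/-- `V ⇢ W` is over a neighbourhood of the points `p i` a finite flat morphism, and the linear form
`lam` in the coordinates of `V` does not vanish at the points of `V` over the `p i`: the ring `C` is
generated by `[K : L]` elements as an `𝒪_(W, Z)`-module, and the map is given by forms `F j` of the same
degree which have no common zero on `Spec C` (they generate the unit ideal). -/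
structure FiniteFlatOver (x : Fin N → K) (y : Fin M → L) (p : Z → Fin M → ℂ) (lam : K) : Prop where
  ne : lam ≠ 0
  linear : ∃ α : Fin N → ℂ, lam = ∑ i, algebraMap ℂ K (α i) * x i
  free : ∃ e : Fin (Module.finrank L K) → K, Subalgebra.toSubmodule (coordRing x y p lam) =
    Submodule.span (localRing y p) (Set.range e)
  morphism : ∃ (d : ℕ) (F : Fin M → MvPolynomial (Fin N) ℂ) (c : Fin M → K),
    (∀ j, (F j).IsHomogeneous d) ∧
    (∀ j k, algebraMap L K (y j) * MvPolynomial.aeval x (F k) =
      algebraMap L K (y k) * MvPolynomial.aeval x (F j)) ∧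
    (∀ j, c j ∈ coordRing x y p lam) ∧
    ∑ j, c j * MvPolynomial.aeval (fun i => x i / lam) (F j) = 1

/-- `s ↦ φ⁻¹ s` maps `𝒪_V(ℓ)` to `f^* 𝓛`, so that `f^* 𝓛 = 𝒪_V(ℓ) + E` with `E` effective. At a prime
divisor `Q` over `V` the sections of `𝒪_V(ℓ)` are the functions of order at least `ℓ` times the minimum
of the orders of the coordinates, and those of `f^* 𝓛` are the functions of order at least `- e a(P)`,
where `P` is the place below `Q` and `e` the ramification index. -/
def PullBack (n ℓ : ℕ) (x : Fin N → K) (a : Place ℂ L → ℤ) (φ : K) : Prop :=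
  φ ≠ 0 ∧ ∀ (Q : Place ℂ K) (P : Place ℂ L) (e : ℕ), Over Q P e → Divisorial n Q →
    ∀ i, x i ≠ 0 → Q.ord φ ≤ e * a P + ℓ * Q.ord (x i)

end

/-- **Very ampleness of adjoint line bundles on images of small degree.** Let `V` and `W` be projective
varieties of dimension `n` with generic points `x` and `y` and function fields `K` and `L`,
`f : V ⇢ W` a dominant rational map of degree `[K : L]`, and `𝓛` a line bundle on `W` with
`f^* 𝓛 = 𝒪_V(ℓ) + E`, `E` effective, where `ℓ ≥ n + s [K : L]`, `s ≥ 1`. Let `p i`, `i ∈ Z`, be points
of `W` at which `K_W + 𝓛` is generated by `η = g dt_1 ∧ ... ∧ dt_n` with `t j` in `𝒪_(W, Z)`, such that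
`f` is finite and flat over the `p i` and `E` is trivial there (`φ g` is a section of
`𝒪_V(ℓ) = lam ^ ℓ C`). Let `b ⊂ 𝒪_(W, Z)` be an ideal of colength at most `s`. Then the sections of
`K_W + 𝓛` generate `(K_W + 𝓛) ⊗ 𝒪_(W, Z) / b`: for each `u` in `𝒪_(W, Z)` there is a global section of
`K_W + 𝓛` which is equal to `u η` modulo `b η`. -/
theorem result {n ℓ s N M : ℕ} {K : Type} [Field K] [Algebra ℂ K] [Algebra.EssFiniteType ℂ K]
    (hK : Algebra.trdeg ℂ K = n) {x : Fin N → K}
    (L : Type) [Field L] [Algebra ℂ L] [Algebra L K] [IsScalarTower ℂ L K]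
    [FiniteDimensional L K] {y : Fin M → L} (hs : 1 ≤ s)
    (degree : n + s * Module.finrank L K ≤ ℓ)
    (a : Place ℂ L → ℤ) {φ : K} (pullback : PullBack n ℓ x a φ)
    {Z : Type} [Nonempty Z] {p : Z → Fin M → ℂ} (hp : ∀ i, IsPoint y (p i))
    {lam : K} (flat : FiniteFlatOver x y p lam)
    {g : L} {t : Fin n → L} (generator : AdjointGenerator a y p g t)
    (trivial : φ * algebraMap L K g / lam ^ ℓ ∈ coordRing x y p lam)
    (b : Ideal (localRing y p)) [Module.Finite ℂ (localRing y p ⧸ b)]
    (colength : Module.finrank ℂ (localRing y p ⧸ b) ≤ s) (u : localRing y p) :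
    ∃ θ : (Fin n → Derivation ℂ L L) → L, IsPluri 1 θ ∧
      (∀ P : Place ℂ L, Divisorial n P → SectionAt a P θ) ∧
      ∃ v ∈ b, ∀ D, θ D = ((u + v : localRing y p) : L) *
        (g * (Matrix.of fun i j => D i (t j)).det) := by
  have h1 : 0 < Module.finrank L K := Module.finrank_pos
  have h2 : 1 ≤ s * Module.finrank L K := Nat.mul_pos (by omega) h1
  obtain ⟨m, rfl⟩ : ∃ m, ℓ = m + (n + 1) := ⟨ℓ - (n + 1), by omega⟩
  have h3 : Module.finrank L K * s ≤ m + 1 := by
    rw [mul_comm]
    omega
  have hy : y ≠ 0 := by
    obtain ⟨i⟩ := (inferInstance : Nonempty Z)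
    intro h0
    apply (hp i).1
    funext j
    have h4 := (hp i).2 1 (MvPolynomial.X j) (MvPolynomial.isHomogeneous_X ℂ j)
      (by rw [MvPolynomial.aeval_X, h0]; rfl)
    rwa [MvPolynomial.aeval_X] at h4
  obtain ⟨α, hα⟩ := flat.linear
  obtain ⟨e, he⟩ := flat.free
  obtain ⟨d, F, c, hF, hyF, hc, hcF⟩ := flat.morphism
  obtain ⟨b', hb'⟩ : ∃ b' : Ideal (Pool.Agent.H614.BF.localRing y p), b' = b := ⟨_, rfl⟩
  have hfin : Module.Finite ℂ (Pool.Agent.H614.BF.localRing y p ⧸ b') := by
    rw [hb']
    exact (inferInstance : Module.Finite ℂ (localRing y p ⧸ b))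
  subst hb'
  exact Pool.Agent.H614.BF.jets (m := m) hK hy h3 p flat.ne hα he hF hyF hc hcF a pullback.1
    pullback.2 generator.1 generator.2.1 generator.2.2 trivial b' colength u

end Pool.Agent.Results.MP_e09b14_ag.VeryAmplenessOnImages
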